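import Pool.Agent.Helper96.ME.Defs
import Pool.Agent.Helper45.MP.CBD

/-!
# LBY : a basis of small integral functions of the space reproduced by a spherical function
-/

set_option autoImplicit false

namespace Pool.Agent.Helper96.ME

open Pool.Agent.Helper96.MP
open Finset
open scoped MatrixGroups

/-- a positive semidefinite matrix with constant diagonal `d` has determinant at most `d ^ n` -/
lemma lby_hadamard {ι : Type} [Fintype ι] [DecidableEq ι] (A : Matrix ι ι ℝ)
    (hA : A.PosSemidef) (d : ℝ) (hd : 0 < d) (hdiag : ∀ i, A i i = d) :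
    A.det ≤ d ^ Fintype.card ι := by
  have hH := hA.isHermitian
  have h1 : A.det = ∏ i, hH.eigenvalues i := by
    have := hH.det_eq_prod_eigenvalues
    simpa using this
  have h2 : A.trace = ∑ i, hH.eigenvalues i := by
    have := hH.trace_eq_sum_eigenvalues
    simpa using this
  have h3 : A.trace = Fintype.card ι * d := by
    unfold Matrix.trace
    simp only [Matrix.diag_apply, hdiag, Finset.sum_const, Finset.card_univ, nsmul_eq_mul]
  have h4 : ∀ i, 0 ≤ hH.eigenvalues i := hA.eigenvalues_nonneg
  have h5 : ∏ i, hH.eigenvalues i = d ^ Fintype.card ι * ∏ i, (hH.eigenvalues i / d) := by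
    rw [Finset.prod_div_distrib, Finset.prod_const, Finset.card_univ]
    field_simp
  have h6 : ∏ i, (hH.eigenvalues i / d) ≤ 1 := by
    calc ∏ i, (hH.eigenvalues i / d) ≤ ∏ i, Real.exp (hH.eigenvalues i / d - 1) := by
          refine Finset.prod_le_prod (fun i _ => div_nonneg (h4 i) hd.le) (fun i _ => ?_)
          have := Real.add_one_le_exp (hH.eigenvalues i / d - 1)
          linarith
      _ = Real.exp (∑ i, (hH.eigenvalues i / d - 1)) := (Real.exp_sum _ _).symm
      _ = 1 := by
          rw [Finset.sum_sub_distrib, ← Finset.sum_div, ← h2, h3, Finset.sum_const,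
            Finset.card_univ, nsmul_eq_mul, mul_one, mul_div_assoc, div_self hd.ne', mul_one,
            sub_self, Real.exp_zero]
  rw [h1, h5]
  calc d ^ Fintype.card ι * ∏ i, (hH.eigenvalues i / d) ≤ d ^ Fintype.card ι * 1 :=
        mul_le_mul_of_nonneg_left h6 (by positivity)
    _ = d ^ Fintype.card ι := mul_one _

theorem st_LBY (hSPA : ST_SPA) (hTRC : ST_TRC) : ST_LBY := by
  intro R _ _ φ hφ K hK hint _ V hV
  classical
  obtain ⟨_, _, hS1, hSG, hYφ, hYw⟩ := hSPA R φ hφ
  have hTR := (hTRC R φ hφ).1 V hV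
  choose kk hkk using hint
  -- the family
  set b0 : SL(2, R) → SL(2, R) → ℤ := fun y x => kk (x * y) with hb0
  set v : SL(2, R) → SL(2, R) → ℝ := fun y x => (b0 y x : ℝ) with hv
  have hvφ : ∀ y x, v y x = K * φ (x * y) := fun y x => (hkk (x * y)).symm
  have hKpos : (0 : ℝ) < K := by exact_mod_cast hK
  have hvmem : ∀ y, v y ∈ V := by
    intro y
    have h1 : (fun x => φ (x * y)) ∈ V := (hV _).mpr ((hYw ℝ φ hYφ).1 y)
    have h2 : v y = (K : ℝ) • (fun x => φ (x * y)) := by
      funext x
      rw [hvφ]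
      rfl
    rw [h2]
    exact V.smul_mem _ h1
  have hspan : Submodule.span ℝ (Set.range v) = V := by
    apply le_antisymm
    · rw [Submodule.span_le]
      rintro _ ⟨y, rfl⟩
      exact hvmem y
    · intro w hw
      have h1 := (hYw ℝ w ((hV w).mp hw)).2.2.2.2.1
      have hS : sq φ ≠ 0 := by linarith
      have h2 : w = ∑ z : SL(2, R), (w z / (sq φ * K)) • v z⁻¹ := by
        funext y
        rw [Finset.sum_apply]
        have h3 := h1 y
        rw [finsum_eq_sum_of_fintype] at h3
        have h4 : ∀ z : SL(2, R), ((w z / (sq φ * K)) • v z⁻¹) y =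
            (φ (y * z⁻¹) • w z) / sq φ := by
          intro z
          rw [Pi.smul_apply, hvφ, smul_eq_mul, smul_eq_mul]
          field_simp
        rw [Finset.sum_congr rfl (fun z _ => h4 z), ← Finset.sum_div, h3, smul_eq_mul]
        field_simp
      rw [h2]
      exact Submodule.sum_mem _ (fun z _ => Submodule.smul_mem _ _
        (Submodule.subset_span ⟨z⁻¹, rfl⟩))
  obtain ⟨κ, a, hainj, haspan, hali⟩ := exists_linearIndependent' (K := ℝ) v
  have : Finite κ := Finite.of_injective a hainj
  have hfin : Fintype κ := Fintype.ofFinite κ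
  have hspan2 : Submodule.span ℝ (Set.range (v ∘ a)) = V := haspan.trans hspan
  have hcard : Fintype.card κ = Module.finrank ℝ V := by
    rw [← hspan2]
    exact (finrank_span_eq_card hali).symm
  -- the diagonal of the Gram matrix
  set G : ℝ := (Nat.card SL(2, R) : ℝ) with hG
  have hGcard : G = (Fintype.card SL(2, R) : ℝ) := by rw [hG, Nat.card_eq_fintype_card]
  have hG1 : 1 ≤ G := hS1.trans hSG
  have hdiag : ∀ y, ∑ x, v y x * v y x = (K : ℝ) ^ 2 * sq φ := by
    intro y
    have e1 : sq φ = ∑ x : SL(2, R), φ (x * y) ^ 2 := by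
      unfold sq
      rw [finsum_eq_sum_of_fintype]
      exact (Fintype.sum_equiv (Equiv.mulRight y) (fun x => φ (x * y) ^ 2) (fun x => φ x ^ 2)
        (fun x => rfl)).symm
    rw [e1, Finset.mul_sum]
    refine Finset.sum_congr rfl (fun x _ => ?_)
    rw [hvφ]
    ring
  have hdpos : (0 : ℝ) < (K : ℝ) ^ 2 * sq φ := by positivity
  refine ⟨Fintype.card κ, ((K : ℝ) ^ 2 * G) ^ Fintype.card κ, ?_, ?_, ?_, ?_⟩
  · refine ⟨κ, hfin, Classical.decEq κ, fun i => b0 (a i), rfl, hali, hspan2, ?_⟩
    have hpsd := cbd_psd (fun (i : κ) => v (a i))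
    have h1 := lby_hadamard _ hpsd ((K : ℝ) ^ 2 * sq φ) hdpos (fun i => by
      rw [Matrix.of_apply]
      exact hdiag (a i))
    refine h1.trans ?_
    apply pow_le_pow_left₀ hdpos.le
    exact mul_le_mul_of_nonneg_left hSG (by positivity)
  · apply one_le_pow₀
    have hK1 : (1 : ℝ) ≤ K := by exact_mod_cast hK
    nlinarith [one_le_pow₀ (n := 2) hK1]
  · rw [hcard]
    exact hTR
  · rw [Real.log_pow, Real.log_mul (by positivity) (by positivity), Real.log_pow]
    push_cast
    exact le_rfl

end Pool.Agent.Helper96.ME
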